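import Pool.Agent.MT100A.StmtsL

/-!
# MT100-A, module LOG: subspaces stable under a unipotent are stable under its logarithm

For a unipotent matrix `U` the matrix `U ^ n * A * U⁻¹ ^ n` is a polynomial in `n`; its linear
coefficient is `lg U * A - A * lg U`.
-/

set_option autoImplicit false

namespace Pool.Agent.MT100A.H20L

open Matrix Polynomial Pool.Agent.MT100A

variable {d : Type} [Fintype d] [DecidableEq d]

/-- The binomial polynomial. -/
noncomputable def bp (k : ℕ) : ℂ[X] := C ((k.factorial : ℂ)⁻¹) * descPochhammer ℂ k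

theorem bp_eval (k n : ℕ) : (bp k).eval (n : ℂ) = (n.choose k : ℂ) := by
  unfold bp
  rw [eval_mul, eval_C, Nat.cast_choose_eq_descPochhammer_div ℂ n k, div_eq_inv_mul]

theorem dp_coeff_zero (k : ℕ) : (descPochhammer ℂ (k + 1)).coeff 0 = 0 := by
  induction k with
  | zero => simp
  | succ k ih =>
    rw [descPochhammer_succ_right, mul_coeff_zero, ih, zero_mul]

theorem dp_coeff_one (k : ℕ) : (descPochhammer ℂ (k + 1)).coeff 1 = (-1) ^ k * (k.factorial : ℂ) := by
  induction k with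
  | zero => simp
  | succ k ih =>
    rw [descPochhammer_succ_right, mul_coeff_one, ih, dp_coeff_zero]
    simp only [coeff_sub, coeff_X_one, zero_mul, coeff_X_zero, zero_sub, zero_add]
    rw [coeff_natCast_ite]
    simp only [if_true]
    rw [Nat.factorial_succ]
    push_cast
    ring

theorem bp_coeff_zero (k : ℕ) : (bp (k + 1)).coeff 0 = 0 := by
  unfold bp
  rw [coeff_C_mul, dp_coeff_zero, mul_zero]

theorem bp_coeff_one (k : ℕ) : (bp (k + 1)).coeff 1 = (-1) ^ k * ((k : ℂ) + 1)⁻¹ := by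
  unfold bp
  rw [coeff_C_mul, dp_coeff_one, Nat.factorial_succ]
  have h1 : (k.factorial : ℂ) ≠ 0 := by exact_mod_cast k.factorial_ne_zero
  have h2 : (k : ℂ) + 1 ≠ 0 := by exact_mod_cast k.succ_ne_zero
  push_cast
  field_simp

theorem bp_zero : bp 0 = 1 := by
  unfold bp
  simp

/-- A vector valued polynomial with values in a coset of a subspace has its linear coefficient in
the subspace. -/
theorem coeff_mem {V : Type} [AddCommGroup V] [Module ℂ V] (W : Submodule ℂ V) {ι : Type}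
    (s : Finset ι) (p : ι → ℂ[X]) (v : ι → V) (c : V)
    (h : ∀ n : ℕ, ∑ i ∈ s, (p i).eval (n : ℂ) • v i - c ∈ W) :
    ∑ i ∈ s, (p i).coeff 1 • v i ∈ W := by
  by_contra hc
  obtain ⟨φ, h1, h2⟩ := Submodule.exists_le_ker_of_notMem hc
  apply h1
  have h3 : ∑ i ∈ s, φ (v i) • p i - C (φ c) = 0 := by
    apply Polynomial.eq_zero_of_infinite_isRoot
    refine Set.Infinite.mono (s := Set.range (fun n : ℕ => (n : ℂ))) ?_ ?_
    · rintro _ ⟨n, rfl⟩
      have h4 : φ (∑ i ∈ s, (p i).eval (n : ℂ) • v i - c) = 0 := h2 (h n)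
      rw [map_sub, map_sum] at h4
      show (∑ i ∈ s, φ (v i) • p i - C (φ c)).eval (n : ℂ) = 0
      rw [eval_sub, eval_C, eval_finsetSum, ← h4]
      congr 1
      refine Finset.sum_congr rfl fun i _ => ?_
      rw [eval_smul, map_smul, smul_eq_mul, smul_eq_mul, mul_comm]
    · exact Set.infinite_range_of_injective Nat.cast_injective
  have h5 := congrArg (fun q : ℂ[X] => q.coeff 1) h3
  simp only [coeff_sub, coeff_C_succ, sub_zero, finsetSum_coeff, coeff_smul, coeff_zero,
    smul_eq_mul] at h5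
  rw [map_sum, ← h5]
  refine Finset.sum_congr rfl fun i _ => ?_
  rw [map_smul, smul_eq_mul, mul_comm]

theorem pow_card_eq_zero {N : Matrix d d ℂ} (hN : IsNilpotent N) : N ^ Fintype.card d = 0 := by
  have h1 := isNilpotent_charpoly_sub_pow_of_isNilpotent hN
  have h2 : N.charpoly = X ^ Fintype.card d := sub_eq_zero.1 h1.eq_zero
  have h3 := N.aeval_self_charpoly
  rw [h2] at h3
  simpa using h3

theorem pow_ge {N : Matrix d d ℂ} (hN : IsNilpotent N) {k : ℕ} (h : Fintype.card d ≤ k) :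
    N ^ k = 0 := by
  rw [← Nat.sub_add_cancel h, pow_add, pow_card_eq_zero hN, mul_zero]

theorem pow_eq_sum {U : Matrix d d ℂ} (hU : IsNilpotent (U - 1)) (n : ℕ) :
    U ^ n = ∑ i ∈ Finset.range (Fintype.card d + 1), (bp i).eval (n : ℂ) • (U - 1) ^ i := by
  have h0 : U = (U - 1) + 1 := by abel
  have h1 : U ^ n = ∑ i ∈ Finset.range (n + 1), (n.choose i : ℂ) • (U - 1) ^ i := by
    conv_lhs => rw [h0]
    rw [(Commute.one_right (U - 1)).add_pow]
    refine Finset.sum_congr rfl fun i _ => ?_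
    rw [one_pow, mul_one, ← nsmul_eq_mul', Nat.cast_smul_eq_nsmul]
  rw [h1]
  have h2 : ∀ m M : ℕ, m ≤ M → (∀ i, m ≤ i → (n.choose i : ℂ) • (U - 1) ^ i = 0) →
      ∑ i ∈ Finset.range M, (n.choose i : ℂ) • (U - 1) ^ i =
        ∑ i ∈ Finset.range m, (n.choose i : ℂ) • (U - 1) ^ i := by
    intro m M hm hz
    symm
    apply Finset.sum_subset (Finset.range_mono hm)
    intro i _ hi
    apply hz
    simpa using hi
  have h3 : ∀ i, n + 1 ≤ i → (n.choose i : ℂ) • (U - 1) ^ i = 0 := by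
    intro i hi
    rw [Nat.choose_eq_zero_of_lt (by omega), Nat.cast_zero, zero_smul]
  have h4 : ∀ i, Fintype.card d + 1 ≤ i → (n.choose i : ℂ) • (U - 1) ^ i = 0 := by
    intro i hi
    rw [pow_ge hU (by omega), smul_zero]
  simp only [bp_eval]
  rw [← h2 (n + 1) (max (n + 1) (Fintype.card d + 1)) (le_max_left _ _) h3,
    h2 (Fintype.card d + 1) (max (n + 1) (Fintype.card d + 1)) (le_max_right _ _) h4]

theorem lg_eq (U : Matrix d d ℂ) :
    ∑ i ∈ Finset.range (Fintype.card d + 1), (bp i).coeff 1 • (U - 1) ^ i = lg U := by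
  rw [Finset.sum_range_succ']
  unfold lg
  simp only [bp_coeff_one, bp_zero, coeff_one]
  simp

theorem inv_nil {U : Matrix d d ℂ} (hU : IsNilpotent (U - 1)) :
    IsUnit U ∧ IsNilpotent (U⁻¹ - 1) := by
  have h1 : IsUnit U := by
    have := hU.isUnit_one_add
    simpa using this
  have h2 : IsUnit U.det := (Matrix.isUnit_iff_isUnit_det U).1 h1
  refine ⟨h1, ?_⟩
  have h3 : U⁻¹ - 1 = -(U⁻¹ * (U - 1)) := by
    rw [mul_sub, Matrix.nonsing_inv_mul U h2, mul_one]
    abel
  rw [h3]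
  have hc : Commute U⁻¹ (U - 1) := by
    show U⁻¹ * (U - 1) = (U - 1) * U⁻¹
    rw [mul_sub, sub_mul, Matrix.nonsing_inv_mul U h2, Matrix.mul_nonsing_inv U h2, mul_one,
      one_mul]
  exact (hc.isNilpotent_mul_left hU).neg

/-- The linear coefficient of `U ^ n * A * U⁻¹ ^ n`. -/
theorem key {U : Matrix d d ℂ} (hU : IsNilpotent (U - 1)) (W : Submodule ℂ (Matrix d d ℂ))
    (A c : Matrix d d ℂ) (h : ∀ n : ℕ, U ^ n * A * U⁻¹ ^ n - c ∈ W) :
    lg U * A + A * lg U⁻¹ ∈ W := by
  obtain ⟨hu, hi⟩ := inv_nil hU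
  have h1 := coeff_mem W
    (Finset.range (Fintype.card d + 1) ×ˢ Finset.range (Fintype.card d + 1))
    (fun x => bp x.1 * bp x.2) (fun x => (U - 1) ^ x.1 * A * (U⁻¹ - 1) ^ x.2) c (by
      intro n
      have h2 := h n
      have e : ∑ x ∈ Finset.range (Fintype.card d + 1) ×ˢ Finset.range (Fintype.card d + 1),
          (bp x.1 * bp x.2).eval (n : ℂ) • ((U - 1) ^ x.1 * A * (U⁻¹ - 1) ^ x.2) =
          U ^ n * A * U⁻¹ ^ n := by
        rw [pow_eq_sum hU n, pow_eq_sum hi n, Finset.sum_mul, Finset.sum_mul_sum,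
          Finset.sum_product]
        refine Finset.sum_congr rfl fun i _ => Finset.sum_congr rfl fun j _ => ?_
        rw [eval_mul, smul_mul_assoc, smul_mul_assoc, mul_smul_comm, smul_smul]
      show ∑ x ∈ Finset.range (Fintype.card d + 1) ×ˢ Finset.range (Fintype.card d + 1),
          (bp x.1 * bp x.2).eval (n : ℂ) • ((U - 1) ^ x.1 * A * (U⁻¹ - 1) ^ x.2) - c ∈ W
      rw [e]
      exact h2)
  rw [Finset.sum_product] at h1
  have h3 : ∑ i ∈ Finset.range (Fintype.card d + 1), ∑ j ∈ Finset.range (Fintype.card d + 1),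
      (bp i * bp j).coeff 1 • ((U - 1) ^ i * A * (U⁻¹ - 1) ^ j) = lg U * A + A * lg U⁻¹ := by
    have h4 : ∀ i j : ℕ, (bp i * bp j).coeff 1 =
        (if j = 0 then (bp i).coeff 1 else 0) + (if i = 0 then (bp j).coeff 1 else 0) := by
      intro i j
      rw [mul_coeff_one]
      rcases Nat.eq_zero_or_pos i with rfl | hi0
      · rcases Nat.eq_zero_or_pos j with rfl | hj0
        · simp [bp_zero, coeff_one]
        · obtain ⟨j, rfl⟩ : ∃ j', j = j' + 1 := ⟨j - 1, by omega⟩
          simp [bp_zero, coeff_one, bp_coeff_zero]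
      · obtain ⟨i, rfl⟩ : ∃ i', i = i' + 1 := ⟨i - 1, by omega⟩
        rcases Nat.eq_zero_or_pos j with rfl | hj0
        · simp [bp_zero, coeff_one, bp_coeff_zero]
        · obtain ⟨j, rfl⟩ : ∃ j', j = j' + 1 := ⟨j - 1, by omega⟩
          simp [bp_coeff_zero]
    simp only [h4, add_smul, Finset.sum_add_distrib, ite_smul, zero_smul]
    have e1 : ∑ i ∈ Finset.range (Fintype.card d + 1), ∑ j ∈ Finset.range (Fintype.card d + 1),
        (if j = 0 then (bp i).coeff 1 • ((U - 1) ^ i * A * (U⁻¹ - 1) ^ j) else 0) = lg U * A := by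
      rw [← lg_eq U, Finset.sum_mul]
      refine Finset.sum_congr rfl fun i _ => ?_
      rw [Finset.sum_ite_eq' (Finset.range (Fintype.card d + 1)) 0]
      simp
    have e2 : ∑ i ∈ Finset.range (Fintype.card d + 1), ∑ j ∈ Finset.range (Fintype.card d + 1),
        (if i = 0 then (bp j).coeff 1 • ((U - 1) ^ i * A * (U⁻¹ - 1) ^ j) else 0) =
        A * lg U⁻¹ := by
      rw [← lg_eq U⁻¹, Finset.mul_sum, Finset.sum_comm]
      refine Finset.sum_congr rfl fun j _ => ?_
      rw [Finset.sum_ite_eq' (Finset.range (Fintype.card d + 1)) 0]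
      simp
    rw [e1, e2]
  rwa [h3] at h1

theorem lg_inv {U : Matrix d d ℂ} (hU : IsNilpotent (U - 1)) : lg U⁻¹ = - lg U := by
  obtain ⟨hu, hi⟩ := inv_nil hU
  have h2 : IsUnit U.det := (Matrix.isUnit_iff_isUnit_det U).1 hu
  have hc : Commute U U⁻¹ := by
    show U * U⁻¹ = U⁻¹ * U
    rw [Matrix.nonsing_inv_mul U h2, Matrix.mul_nonsing_inv U h2]
  have h1 := key hU ⊥ 1 1 (by
    intro n
    rw [mul_one, ← hc.mul_pow, Matrix.mul_nonsing_inv U h2, one_pow, sub_self]
    exact Submodule.zero_mem _)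
  rw [Submodule.mem_bot, mul_one, one_mul] at h1
  exact eq_neg_of_add_eq_zero_right h1

theorem log : LogStmt := by
  intro d _ _ U hU W hW A hA
  obtain ⟨hu, hi⟩ := inv_nil hU
  have h2 : IsUnit U.det := (Matrix.isUnit_iff_isUnit_det U).1 hu
  have h1 : ∀ n : ℕ, U ^ n * A * U⁻¹ ^ n ∈ W := by
    intro n
    induction n with
    | zero => simpa using hA
    | succ n ih =>
      have h3 := hW _ ih
      have h4 : U ^ (n + 1) * A * U⁻¹ ^ (n + 1) = U * (U ^ n * A * U⁻¹ ^ n) * U⁻¹ := by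
        rw [pow_succ', pow_succ]
        simp only [mul_assoc]
      rw [h4]
      exact h3
  have h5 := key hU W A 0 (fun n => by rw [sub_zero]; exact h1 n)
  rw [lg_inv hU, mul_neg, ← sub_eq_add_neg] at h5
  exact h5

end Pool.Agent.MT100A.H20L
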